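import Pool.Agent.Helper53.CTR.Goals

/-!
# PROJECT CTR (MP_8b4d68_lc): packet STP
-/

namespace Pool.Agent.Helper90.CTR

open Pool.Agent.Helper53.CTR
open Pool.Agent.Helper1.TE (Gad app Ch word)
open Pool.Agent.Helper65.LinSpace (dig ifz eq01 capPow)

theorem word_lt (w : List Bool) (i b : ℕ) : word w i b < 2 ^ b := by
  induction b with
  | zero => simp [word]
  | succ b ih =>
    have h : (w.getD (i + b) false).toNat ≤ 1 := Bool.toNat_le _
    have e : word w i (b + 1) = 2 * word w i b + (w.getD (i + b) false).toNat := rfl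
    rw [e, pow_succ]
    omega

theorem capPow_eq {q i B : ℕ} (h : q ^ i ≤ B) : capPow q i B = q ^ i := by
  unfold capPow
  omega

theorem gSTP : GoalSTP := by
  intro hPB hWFD hDES hOK hDI hEE ok w h q b c τ g X S A hF hτ hg hX hS hCh D t hD ht
  obtain ⟨⟨-, -, hh, hq, hb, hc, -⟩, -⟩ := hF
  obtain ⟨p1, p2, p3, p4, p5, p6, p7, p8, p9, p10, -⟩ := hPB h q b c hh hq hb hc
  set W := 2 ^ Et h q b c with hW
  have hok : OK6 (gadC b W) := hOK b W hb p8
  have hr : ∀ v x y, tabV b (dat w h q b c) v x y < (gadC b W).K := fun v x y => word_lt _ _ _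
  have hcK : 2 ^ c ≤ (gadC b W).K := Nat.pow_le_pow_right (by norm_num) hc
  have hVdef : ∀ z : ℕ × ℕ, (gadC b W).V z ↔ z.1 < Pb b ^ (4 * b + 2) := fun z => Iff.rfl
  have hG : (gadC b W).G = Gb b := rfl
  have hst : ∀ z : ℕ × ℕ, (gadC b W).st z = z.2 := fun z => rfl
  have hPbpos : 0 < Pb b := by
    unfold Pb
    omega
  have hC0 : ∀ j : ℕ, (gadC b W).V ((fun _ => (0, 0) : ℕ → ℕ × ℕ) j) ∧
      (gadC b W).st ((fun _ => (0, 0) : ℕ → ℕ × ℕ) j) = 0 :=
    fun j => ⟨(hVdef _).2 (pow_pos hPbpos _), rfl⟩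
  -- the descriptor
  have hWF : WF q (2 ^ Nt h q * 2) D := by
    rw [hD]
    exact hWFD.2.1 q 2 (root h q) (Nt h q) τ (Nt h q) (hWFD.2.2 h q) le_rfl
  have hop : ∀ a y s, opM w h q b c τ a y s =
      exec (gadC b W) (fun v => eq01 v 1) (tabV b (dat w h q b c)) c D a y s := by
    intro a y s
    have h1 := hDES.1 (gadC b W) (fun v => eq01 v 1) (tabV b (dat w h q b c)) q c (root h q)
      (Nt h q) τ a y s
    rw [hD, hDES.2 q (root h q) (Nt h q) τ hτ]
    exact h1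
  -- the guesses
  have h2b : 0 < 2 ^ b := by positivity
  have h4b : (4 : ℕ) ^ b = 2 ^ b * 2 ^ b := by
    rw [← mul_pow]
    norm_num
  have ha : g / 2 ^ b < 2 ^ b := by
    rw [Nat.div_lt_iff_lt_mul h2b, ← h4b]
    exact hg
  have hy : g % 2 ^ b < 2 ^ b := Nat.mod_lt _ h2b
  have hgs : 2 ^ b * (g / 2 ^ b) + g % 2 ^ b = g := Nat.div_add_mod _ _
  have hblk : blkM b c W D A g = D.v * 4 ^ b + ifz D.k (2 ^ b * (A % 2 ^ c)) g := by
    unfold blkM
    rw [capPow_eq p9, capPow_eq p10]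
  have ht0 : D.k = 0 → t = tabV b (dat w h q b c) D.v (A % 2 ^ c) 0 := by
    intro hk
    rw [ht, hblk, hk]
    rfl
  have ht4 : D.k ≠ 0 → t = tabV b (dat w h q b c) D.v (g / 2 ^ b) (g % 2 ^ b) := by
    intro hk
    have e : ifz D.k (2 ^ b * (A % 2 ^ c)) g = g := if_neg hk
    rw [ht, hblk, e]
    unfold tabV
    rw [hgs]
  -- bounds of the old state
  have hdi := hDI (gadC b W) hok (fun v => eq01 v 1) (tabV b (dat w h q b c)) q c h τ A
    (fun _ => (0, 0)) (toF h b X S) hr hcK hC0 hτ hCh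
  have hdig : ∀ j, dig (2 ^ Eb b) X j < Pb b ^ (4 * b + 2) := fun j => hdi.1 j
  have hee := hEE (tabV b (dat w h q b c)) h q b c (2 ^ Nt h q * 2) (g / 2 ^ b) (g % 2 ^ b) t X S
    A D hh hq hb hc hWF hX hS hdig ht0 (fun hk => ht4 (by omega))
  refine ⟨?_, ?_⟩
  · intro h0
    rw [hop]
    exact hee.1 h0
  · intro h0
    obtain ⟨C', hC1, hC2⟩ := hee.2 h0
    have hstep : opM w h q b c τ (g / 2 ^ b) (g % 2 ^ b) (toF h b X S, A) =
        some (C', bigA c W D (g / 2 ^ b) A) := by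
      rw [hop]
      exact hC1
    have hCh' : Ch (opM w h q b c) (2 ^ b) (τ + 1) (fun _ => (0, 0), 0)
        (C', bigA c W D (g / 2 ^ b) A) := Ch.succ _ _ ha hy hCh hstep
    refine ⟨_, hstep, hCh', ?_⟩
    intro hτ1
    have hdi' := hDI (gadC b W) hok (fun v => eq01 v 1) (tabV b (dat w h q b c)) q c h (τ + 1)
      (bigA c W D (g / 2 ^ b) A) (fun _ => (0, 0)) C' hr hcK hC0 hτ1 hCh'
    obtain ⟨e1, e2, e3⟩ := hC2 (fun j hj => ⟨hdi'.1 j,
      lt_of_lt_of_le (by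
        have h1 := hdi'.2.1 j hj
        rw [hG, hst] at h1
        exact h1) p3⟩)
    refine ⟨?_, e2, e3⟩
    rw [e1]

end Pool.Agent.Helper90.CTR
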